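import Pool.Agent.REV.StmtsU

set_option autoImplicit false

/-!
# REV, row KSN: sign lemma for `kk`, quantitative
-/

namespace Pool.Agent.REV.H58

open Pool.Agent.REV Set MeasureTheory
open scoped Topology Interval

theorem ksn (kki : KkiStmt) : KsnStmt := by
  intro n γ hn hγ r1 r2 h1 h12 h2
  obtain ⟨hcont, hfac, hint⟩ := kki n hn
  have hn' : (4 : ℝ) ≤ n := by exact_mod_cast hn
  have hn1 : (0 : ℝ) < (n : ℝ) - 1 := by linarith
  have hs : 0 < Real.sqrt ((n : ℝ) - 1) := Real.sqrt_pos.2 hn1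
  set r0 : ℝ := 1 / Real.sqrt ((n : ℝ) - 1) with hr0
  have hr0p : 0 < r0 := by rw [hr0]; positivity
  have hr0sq : ((n : ℝ) - 1) * r0 ^ 2 = 1 := by
    rw [hr0, div_pow, Real.sq_sqrt hn1.le]
    field_simp
  have hr0lt : r0 < 1 := by
    by_contra h
    push Not at h
    nlinarith
  have hr20 : 0 ≤ r2 := h1.trans h12
  have hr2r0 : r2 ≤ r0 := by
    by_contra h
    push Not at h
    have : r0 ^ 2 < r2 ^ 2 := by nlinarith
    nlinarith
  have h01 : (0 : ℝ) ∈ Icc (0 : ℝ) 1 := ⟨le_rfl, zero_le_one⟩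
  have hr0m : r0 ∈ Icc (0 : ℝ) 1 := ⟨hr0p.le, hr0lt.le⟩
  have hr1m : r1 ∈ Icc (0 : ℝ) 1 := ⟨h1, (h12.trans hr2r0).trans hr0lt.le⟩
  have hr2m : r2 ∈ Icc (0 : ℝ) 1 := ⟨hr20, hr2r0.trans hr0lt.le⟩
  -- signs
  have hpos : ∀ r ∈ Icc (0 : ℝ) 1, r ≤ r0 → 0 ≤ kk n r := by
    intro r hr hle
    rw [hfac r hr]
    have e1 : 0 ≤ 1 - r ^ 2 := by nlinarith [hr.1, hr.2]
    have e2 : r ^ 2 ≤ r0 ^ 2 := by nlinarith [hr.1]
    have e3 : 0 ≤ 1 - ((n : ℝ) - 1) * r ^ 2 := by nlinarith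
    exact mul_nonneg (Real.rpow_nonneg e1 _) e3
  have hneg : ∀ r ∈ Icc (0 : ℝ) 1, r0 ≤ r → kk n r ≤ 0 := by
    intro r hr hle
    rw [hfac r hr]
    have e1 : 0 ≤ 1 - r ^ 2 := by nlinarith [hr.1, hr.2]
    have e2 : r0 ^ 2 ≤ r ^ 2 := by nlinarith [hr.1]
    have e3 : 1 - ((n : ℝ) - 1) * r ^ 2 ≤ 0 := by nlinarith
    exact mul_nonpos_of_nonneg_of_nonpos (Real.rpow_nonneg e1 _) e3
  -- integrability
  have hγi : IntervalIntegrable γ volume 0 1 := by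
    refine AntitoneOn.intervalIntegrable ?_
    rwa [uIcc_of_le zero_le_one]
  have hkc : ContinuousOn (kk n) (uIcc (0 : ℝ) 1) := by rwa [uIcc_of_le zero_le_one]
  have hki : IntervalIntegrable (kk n) volume 0 1 := hkc.intervalIntegrable
  have hkγ : IntervalIntegrable (fun r => kk n r * γ r) volume 0 1 := hγi.continuousOn_mul hkc
  have hGi : IntervalIntegrable (fun r => kk n r * (γ r - γ r0)) volume 0 1 :=
    (hγi.sub intervalIntegrable_const).continuousOn_mul hkc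
  have hk0 : ∫ r in (0 : ℝ)..1, kk n r = 0 := by
    rw [hint 1 ⟨zero_le_one, le_rfl⟩]
    have : ((1 : ℝ) - 1 ^ 2) = 0 := by norm_num
    rw [this, Real.zero_rpow (by
      have : (0 : ℝ) < ((n : ℝ) - 2) / 2 := by linarith
      exact this.ne'), mul_zero]
  have hsplit : ∫ r in (0 : ℝ)..1, kk n r * γ r = ∫ r in (0 : ℝ)..1, kk n r * (γ r - γ r0) := by
    have e : ∀ r : ℝ, kk n r * (γ r - γ r0) = kk n r * γ r - kk n r * γ r0 := fun r => by ring
    simp_rw [e]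
    rw [intervalIntegral.integral_sub hkγ (hki.mul_const _), intervalIntegral.integral_mul_const,
      hk0]
    ring
  rw [hsplit]
  have hsub1 : uIcc (0 : ℝ) r1 ⊆ uIcc (0 : ℝ) 1 := by
    rw [uIcc_of_le h1, uIcc_of_le zero_le_one]
    exact Icc_subset_Icc le_rfl hr1m.2
  have hsub2 : uIcc r1 (1 : ℝ) ⊆ uIcc (0 : ℝ) 1 := by
    rw [uIcc_of_le hr1m.2, uIcc_of_le zero_le_one]
    exact Icc_subset_Icc h1 le_rfl
  have hG1 := hGi.mono_set hsub1
  have hG2 := hGi.mono_set hsub2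
  rw [← intervalIntegral.integral_add_adjacent_intervals hG1 hG2]
  have hA : r1 * (1 - r1 ^ 2) ^ (((n : ℝ) - 2) / 2) * (γ r1 - γ r2) ≤
      ∫ r in (0 : ℝ)..r1, kk n r * (γ r - γ r0) := by
    rw [← hint r1 hr1m, ← intervalIntegral.integral_mul_const]
    refine intervalIntegral.integral_mono_on h1 ((hki.mono_set hsub1).mul_const _) hG1 ?_
    intro r hr
    have hrm : r ∈ Icc (0 : ℝ) 1 := ⟨hr.1, hr.2.trans hr1m.2⟩
    refine mul_le_mul_of_nonneg_left ?_ (hpos r hrm (hr.2.trans (h12.trans hr2r0)))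
    have e1 : γ r1 ≤ γ r := hγ hrm hr1m hr.2
    have e2 : γ r0 ≤ γ r2 := hγ hr2m hr0m hr2r0
    linarith
  have hB : 0 ≤ ∫ r in r1..(1 : ℝ), kk n r * (γ r - γ r0) := by
    refine intervalIntegral.integral_nonneg hr1m.2 ?_
    intro r hr
    have hrm : r ∈ Icc (0 : ℝ) 1 := ⟨h1.trans hr.1, hr.2⟩
    rcases le_total r r0 with h | h
    · exact mul_nonneg (hpos r hrm h) (sub_nonneg.2 (hγ hrm hr0m h))
    · exact mul_nonneg_of_nonpos_of_nonpos (hneg r hrm h) (sub_nonpos.2 (hγ hr0m hrm h))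
  linarith

end Pool.Agent.REV.H58
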